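import Pool.Agent.TH391.Az.Final

namespace Pool.Agent.Results.MP_b90a94_co.ClosedFormula

open Pool.Agent.Helper848 Pool.Agent.TH391.Az

/-- A closed formula for the number `T(n)` of domino tilings of the Aztec diamond of order `n` with
the two unit squares centred at `(-1/2, -1/2)` and `(1/2, 3/2)` removed, for every `n ≥ 2`, according
to the residue of `n` modulo `4`; here `Nat.centralBinom m` is the binomial coefficient of `2 m` over
`m`, and every subtraction below is exact (no truncation occurs, since `m ≥ 1`). -/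
theorem result :
    (∀ m : ℕ, 1 ≤ m → numTilings (knightRegion (4 * m)) =
      2 ^ (8 * m ^ 2 - 6 * m - 1) * m * Nat.centralBinom m ^ 2 *
        (16 ^ m + Nat.centralBinom m ^ 2)) ∧
    (∀ m : ℕ, 1 ≤ m → numTilings (knightRegion (4 * m + 1)) =
      2 ^ (8 * m ^ 2 - 2 * m - 1) * (2 * m + 1) * Nat.centralBinom m ^ 2 *
        (16 ^ m - Nat.centralBinom m ^ 2)) ∧
    (∀ m : ℕ, numTilings (knightRegion (4 * m + 2)) =
      2 ^ (8 * m ^ 2 + 6 * m + 1) * (2 * m + 1) * Nat.centralBinom m ^ 2) ∧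
    (∀ m : ℕ, numTilings (knightRegion (4 * m + 3)) =
      2 ^ (8 * m ^ 2 + 10 * m + 1) * (m + 1) * Nat.centralBinom (m + 1) ^ 2) := by
  refine ⟨?_, ?_, ?_, ?_⟩
  · intro m hm
    obtain ⟨M, rfl⟩ : ∃ M, m = M + 1 := ⟨m - 1, by omega⟩
    rw [T0 M, Nat.centralBinom_eq_two_mul_choose]
    have h : 8 * (M + 1) ^ 2 - 6 * (M + 1) - 1 = 8 * M ^ 2 + 10 * M + 1 := by
      have e : 8 * (M + 1) ^ 2 = 8 * M ^ 2 + 16 * M + 8 := by ring
      omega
    rw [h]
  · intro m hm
    obtain ⟨M, rfl⟩ : ∃ M, m = M + 1 := ⟨m - 1, by omega⟩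
    rw [T1 M, Nat.centralBinom_eq_two_mul_choose]
    have h : 8 * (M + 1) ^ 2 - 2 * (M + 1) - 1 = 8 * M ^ 2 + 14 * M + 5 := by
      have e : 8 * (M + 1) ^ 2 = 8 * M ^ 2 + 16 * M + 8 := by ring
      omega
    rw [h, show 2 * (M + 1) + 1 = 2 * M + 3 by ring]
  · intro m
    rw [T2 m, Nat.centralBinom_eq_two_mul_choose]
  · intro m
    rw [T3 m, Nat.centralBinom_eq_two_mul_choose]

end Pool.Agent.Results.MP_b90a94_co.ClosedFormula
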